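/-!
# A kernel checker for the covering of a pentagon by nine translates
-/

set_option autoImplicit false

namespace HPL

/-- bounds for the five depths of one copy -/
structure P5 : Type where
  /-- depth -/
  a : Nat
  /-- depth -/
  b : Nat
  /-- depth -/
  c : Nat
  /-- depth -/
  d : Nat
  /-- depth -/
  e : Nat

/-- evaluate the number before the function is applied -/
noncomputable def force (n : Nat) (f : Nat → Bool) : Bool :=
  @Nat.rec (fun _ => Bool) (f (nat_lit 0)) (fun m _ => f (Nat.succ m)) n

/-- evaluate five numbers before the function is applied -/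
noncomputable def force5 (a b c d e : Nat) (f : Nat → Nat → Nat → Nat → Nat → Bool) : Bool :=
  force a fun a => force b fun b => force c fun c => force d fun d => force e (f a b c d)

/-- minimum -/
noncomputable def mn (a b : Nat) : Nat := @Bool.rec (fun _ => Nat) b a (Nat.ble a b)

/-- continue if the test succeeds -/
noncomputable def ok (b x : Bool) : Bool := @Bool.rec (fun _ => Bool) false x b

/-- number of entries -/
noncomputable def len (l : List P5) : Nat :=
  @List.rec P5 (fun _ => Nat) (nat_lit 0) (fun _ _ n => Nat.succ n) l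

/-- reverse the first list in front of the second -/
noncomputable def rv (l : List P5) : List P5 → List P5 :=
  @List.rec P5 (fun _ => List P5 → List P5) (fun r => r) (fun c _ ih r => ih (List.cons c r)) l

/-- subtraction with a check -/
noncomputable def sb (u v : Nat) (f : Nat → Bool) : Bool :=
  ok (Nat.ble v u) (force (Nat.sub u v) f)

/-- the five depths of the point `(x, y)` -/
noncomputable def dst (x y : Nat) (f : P5 → Bool) : Bool :=
  sb (Nat.add (nat_lit 302500) (Nat.mul (nat_lit 34) y)) (Nat.mul (nat_lit 55) x) fun d1 =>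
  sb (nat_lit 14400) (Nat.add x y) fun d2 =>
  sb (Nat.add (nat_lit 302500) (Nat.mul (nat_lit 34) x)) (Nat.mul (nat_lit 55) y) fun d3 => f (P5.mk y d1 d2 d3 x)

/-- last step of the closure -/
noncomputable def fin5 (f : P5 → Bool) (a b c d e : Nat) : Bool := f (P5.mk a b c d e)

/-- middle step of the closure -/
noncomputable def mid5 (a b c d e : Nat) (f : P5 → Bool) (a1 b1 c1 d1 e1 : Nat) : Bool :=
  force5 (mn a a1) (mn b b1) (mn c c1) (mn d d1) (mn e e1) (fin5 f)

/-- the closure of five bounds under the linear relations -/
noncomputable def clo (f : P5 → Bool) (a b c d e : Nat) : Bool :=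
  force5
    (Nat.div (Nat.add (Nat.sub (Nat.add (Nat.mul (nat_lit 55) e) b) (nat_lit 176055)) (nat_lit 33)) (nat_lit 34))
    (Nat.sub (Nat.add (Nat.mul (nat_lit 89) a) (Nat.mul (nat_lit 55) c)) (nat_lit 284889))
    (Nat.div (Nat.add (Nat.sub (Nat.add b d) (nat_lit 176113)) (nat_lit 20)) (nat_lit 21))
    (Nat.sub (Nat.add (Nat.mul (nat_lit 55) c) (Nat.mul (nat_lit 89) e)) (nat_lit 284889))
    (Nat.div (Nat.add (Nat.sub (Nat.add d (Nat.mul (nat_lit 55) a)) (nat_lit 176055)) (nat_lit 33)) (nat_lit 34))
    (mid5 a b c d e f)

/-- relation 0 -/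
noncomputable def t0 (u v : P5) : Bool :=
  Nat.ble (Nat.add (Nat.add (Nat.mul (nat_lit 89) (mn u.a v.a)) (Nat.mul (nat_lit 34) (mn u.c v.c))) (mn u.d v.d)) (nat_lit 461002)

/-- relation 1 -/
noncomputable def t1 (u v : P5) : Bool :=
  Nat.ble (Nat.add (Nat.add (Nat.mul (nat_lit 55) (mn u.b v.b)) (Nat.mul (nat_lit 34) (mn u.d v.d))) (Nat.mul (nat_lit 1869) (mn u.e v.e))) (nat_lit 15668894)

/-- relation 2 -/
noncomputable def t2 (u v : P5) : Bool :=
  Nat.ble (Nat.add (Nat.add (mn u.c v.c) (mn u.e v.e)) (mn u.a v.a)) (nat_lit 8380)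

/-- relation 3 -/
noncomputable def t3 (u v : P5) : Bool :=
  Nat.ble (Nat.add (Nat.add (Nat.mul (nat_lit 55) (mn u.d v.d)) (Nat.mul (nat_lit 1869) (mn u.a v.a))) (Nat.mul (nat_lit 34) (mn u.b v.b))) (nat_lit 15668894)

/-- relation 4 -/
noncomputable def t4 (u v : P5) : Bool :=
  Nat.ble (Nat.add (Nat.add (Nat.mul (nat_lit 89) (mn u.e v.e)) (mn u.b v.b)) (Nat.mul (nat_lit 34) (mn u.c v.c))) (nat_lit 461002)

/-- the point with the depths `v` is put into the cluster `u` -/
noncomputable def put (u v : P5) (f : Nat → Nat → Nat → Nat → Nat → Bool) : Bool :=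
  force5 (mn u.a v.a) (mn u.b v.b) (mn u.c v.c) (mn u.d v.d) (mn u.e v.e) f

/-- continue with the next cluster after the new state has been put on the stack -/
noncomputable def push (c : P5) (cs done : List P5) (g : Nat)
    (st : List (List P5)) (ih : List P5 → Nat → List (List P5) → Bool) (n : P5) : Bool :=
  ih (List.cons c done) g (List.cons (rv done (List.cons n cs)) st)

/-- one cluster -/
noncomputable def step (D c : P5) (cs done : List P5) (t : Nat)
    (st : List (List P5)) (ih : List P5 → Nat → List (List P5) → Bool) (g : Nat) : Bool :=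
  @Nat.rec (fun _ => Bool) (put c D (fin5 (push c cs done g st ih)))
    (fun t _ => @Nat.rec (fun _ => Bool) (put c D (clo (push c cs done g st ih)))
      (fun t _ => ok (@Nat.rec (fun _ => P5 → P5 → Bool) t0
        (fun t _ => @Nat.rec (fun _ => P5 → P5 → Bool) t1
          (fun t _ => @Nat.rec (fun _ => P5 → P5 → Bool) t2
            (fun t _ => @Nat.rec (fun _ => P5 → P5 → Bool) t3 (fun _ _ => t4) t) t) t) t c D)
        (ih (List.cons c done) g st)) t) t

/-- a new cluster -/
noncomputable def newc (D : P5) (k : List (List P5) → Bool) (done : List P5) (g : Nat)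
    (st : List (List P5)) : Bool :=
  @Nat.rec (fun _ => Bool) (k (List.cons (rv done (List.cons D List.nil)) st))
    (fun _ _ => put D D (clo fun n => k (List.cons (rv done (List.cons n List.nil)) st))) g

/-- all clusters of one state -/
noncomputable def proc (D : P5) (k : List (List P5) → Bool) (todo : List P5) :
    List P5 → Nat → List (List P5) → Bool :=
  @List.rec P5 (fun _ => List P5 → Nat → List (List P5) → Bool)
    (fun done g st => @Bool.rec (fun _ => Bool) (newc D k done g st) (k st)
      (Nat.ble (nat_lit 9) (len done)))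
    (fun c cs ih done g st => force (Nat.div g (nat_lit 8)) (step D c cs done (Nat.mod g (nat_lit 8)) st ih))
    todo

/-- one instruction -/
noncomputable def exp2 (s : List P5) (st : List (List P5))
    (k : List (List P5) → Bool) (g x y : Nat) : Bool :=
  dst x y fun D => proc D k s List.nil g st

/-- one instruction -/
noncomputable def expand (c : Nat) (s : List P5) (st : List (List P5))
    (k : List (List P5) → Bool) : Bool :=
  force (Nat.div c (nat_lit 268435456)) fun g =>
  force (Nat.mod (Nat.div c (nat_lit 16384)) (nat_lit 16384)) fun x =>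
  force (Nat.mod c (nat_lit 16384)) (exp2 s st k g x)

/-- equality of two bounds -/
noncomputable def eqC (u v : P5) : Bool :=
  ok (Nat.beq u.a v.a) (ok (Nat.beq u.b v.b) (ok (Nat.beq u.c v.c) (ok (Nat.beq u.d v.d)
      (Nat.beq u.e v.e))))

/-- equality of two states -/
noncomputable def eqS (u : List P5) : List P5 → Bool :=
  @List.rec P5 (fun _ => List P5 → Bool)
    (fun v => @List.rec P5 (fun _ => Bool) true (fun _ _ _ => false) v)
    (fun c _ ih v => @List.rec P5 (fun _ => Bool) false (fun c' cs' _ => ok (eqC c c') (ih cs')) v) u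

/-- equality of two stacks -/
noncomputable def eqT (u : List (List P5)) : List (List P5) → Bool :=
  @List.rec (List P5) (fun _ => List (List P5) → Bool)
    (fun v => @List.rec (List P5) (fun _ => Bool) true (fun _ _ _ => false) v)
    (fun c _ ih v => @List.rec (List P5) (fun _ => Bool) false
      (fun c' cs' _ => ok (eqS c c') (ih cs')) v) u

/-- run the instructions -/
noncomputable def run (fin : List (List P5)) (codes : List Nat) : List (List P5) → Bool :=
  @List.rec Nat (fun _ => List (List P5) → Bool) (fun st => eqT st fin)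
    (fun c _ ih st => @List.rec (List P5) (fun _ => Bool) false (fun s st _ => expand c s st ih) st) codes

end HPL
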