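import Mathlib

/-!
# Covering ratios of plane convex bodies
-/

set_option autoImplicit false

namespace HPL

/-- The plane convex bodies: compact convex sets with non-empty interior. -/
def IsBody (C : Set (EuclideanSpace ℝ (Fin 2))) : Prop :=
  IsCompact C ∧ Convex ℝ C ∧ (interior C).Nonempty

/-- `C` is contained in the union of `k` homothetic copies `x i + r C` of `C`. -/
def CoveredBy (k : ℕ) (r : ℝ) (C : Set (EuclideanSpace ℝ (Fin 2))) : Prop :=
  ∃ x : Fin k → EuclideanSpace ℝ (Fin 2), C ⊆ ⋃ i, (fun y => x i + r • y) '' C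

/-- `h_k(C)`, the least positive ratio with which `k` homothetic copies cover `C`. -/
noncomputable def hk (k : ℕ) (C : Set (EuclideanSpace ℝ (Fin 2))) : ℝ :=
  sInf {r : ℝ | 0 < r ∧ CoveredBy k r C}

/-- The supremum of `h_k(C)` over all plane convex bodies `C`. -/
noncomputable def hHat (k : ℕ) : ℝ := sSup {t : ℝ | ∃ C, IsBody C ∧ t = hk k C}

end HPL
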