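import Pool.Agent.HPL.Geo
import Pool.Agent.HPL.R00
import Pool.Agent.HPL.R01
import Pool.Agent.HPL.R02
import Pool.Agent.HPL.R03
import Pool.Agent.HPL.R04
import Pool.Agent.HPL.R05
import Pool.Agent.HPL.R06
import Pool.Agent.HPL.R07
import Pool.Agent.HPL.R08
import Pool.Agent.HPL.R09
import Pool.Agent.HPL.R10
import Pool.Agent.HPL.R11

/-!
# The complete run
-/

set_option autoImplicit false

namespace HPL

theorem refuted : Refuted := by
  intro m T hm hcov
  have e72 : ∀ s ∈ z72, ¬ Good m T s := fun s hs => absurd hs List.not_mem_nil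
  have e71 := run_sound hm hcov z72 e72 q71 z71 r71
  have e70 := run_sound hm hcov z71 e71 q70 z70 r70
  have e69 := run_sound hm hcov z70 e70 q69 z69 r69
  have e68 := run_sound hm hcov z69 e69 q68 z68 r68
  have e67 := run_sound hm hcov z68 e68 q67 z67 r67
  have e66 := run_sound hm hcov z67 e67 q66 z66 r66
  have e65 := run_sound hm hcov z66 e66 q65 z65 r65
  have e64 := run_sound hm hcov z65 e65 q64 z64 r64
  have e63 := run_sound hm hcov z64 e64 q63 z63 r63
  have e62 := run_sound hm hcov z63 e63 q62 z62 r62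
  have e61 := run_sound hm hcov z62 e62 q61 z61 r61
  have e60 := run_sound hm hcov z61 e61 q60 z60 r60
  have e59 := run_sound hm hcov z60 e60 q59 z59 r59
  have e58 := run_sound hm hcov z59 e59 q58 z58 r58
  have e57 := run_sound hm hcov z58 e58 q57 z57 r57
  have e56 := run_sound hm hcov z57 e57 q56 z56 r56
  have e55 := run_sound hm hcov z56 e56 q55 z55 r55
  have e54 := run_sound hm hcov z55 e55 q54 z54 r54
  have e53 := run_sound hm hcov z54 e54 q53 z53 r53
  have e52 := run_sound hm hcov z53 e53 q52 z52 r52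
  have e51 := run_sound hm hcov z52 e52 q51 z51 r51
  have e50 := run_sound hm hcov z51 e51 q50 z50 r50
  have e49 := run_sound hm hcov z50 e50 q49 z49 r49
  have e48 := run_sound hm hcov z49 e49 q48 z48 r48
  have e47 := run_sound hm hcov z48 e48 q47 z47 r47
  have e46 := run_sound hm hcov z47 e47 q46 z46 r46
  have e45 := run_sound hm hcov z46 e46 q45 z45 r45
  have e44 := run_sound hm hcov z45 e45 q44 z44 r44
  have e43 := run_sound hm hcov z44 e44 q43 z43 r43
  have e42 := run_sound hm hcov z43 e43 q42 z42 r42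
  have e41 := run_sound hm hcov z42 e42 q41 z41 r41
  have e40 := run_sound hm hcov z41 e41 q40 z40 r40
  have e39 := run_sound hm hcov z40 e40 q39 z39 r39
  have e38 := run_sound hm hcov z39 e39 q38 z38 r38
  have e37 := run_sound hm hcov z38 e38 q37 z37 r37
  have e36 := run_sound hm hcov z37 e37 q36 z36 r36
  have e35 := run_sound hm hcov z36 e36 q35 z35 r35
  have e34 := run_sound hm hcov z35 e35 q34 z34 r34
  have e33 := run_sound hm hcov z34 e34 q33 z33 r33
  have e32 := run_sound hm hcov z33 e33 q32 z32 r32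
  have e31 := run_sound hm hcov z32 e32 q31 z31 r31
  have e30 := run_sound hm hcov z31 e31 q30 z30 r30
  have e29 := run_sound hm hcov z30 e30 q29 z29 r29
  have e28 := run_sound hm hcov z29 e29 q28 z28 r28
  have e27 := run_sound hm hcov z28 e28 q27 z27 r27
  have e26 := run_sound hm hcov z27 e27 q26 z26 r26
  have e25 := run_sound hm hcov z26 e26 q25 z25 r25
  have e24 := run_sound hm hcov z25 e25 q24 z24 r24
  have e23 := run_sound hm hcov z24 e24 q23 z23 r23
  have e22 := run_sound hm hcov z23 e23 q22 z22 r22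
  have e21 := run_sound hm hcov z22 e22 q21 z21 r21
  have e20 := run_sound hm hcov z21 e21 q20 z20 r20
  have e19 := run_sound hm hcov z20 e20 q19 z19 r19
  have e18 := run_sound hm hcov z19 e19 q18 z18 r18
  have e17 := run_sound hm hcov z18 e18 q17 z17 r17
  have e16 := run_sound hm hcov z17 e17 q16 z16 r16
  have e15 := run_sound hm hcov z16 e16 q15 z15 r15
  have e14 := run_sound hm hcov z15 e15 q14 z14 r14
  have e13 := run_sound hm hcov z14 e14 q13 z13 r13
  have e12 := run_sound hm hcov z13 e13 q12 z12 r12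
  have e11 := run_sound hm hcov z12 e12 q11 z11 r11
  have e10 := run_sound hm hcov z11 e11 q10 z10 r10
  have e9 := run_sound hm hcov z10 e10 q9 z9 r9
  have e8 := run_sound hm hcov z9 e9 q8 z8 r8
  have e7 := run_sound hm hcov z8 e8 q7 z7 r7
  have e6 := run_sound hm hcov z7 e7 q6 z6 r6
  have e5 := run_sound hm hcov z6 e6 q5 z5 r5
  have e4 := run_sound hm hcov z5 e5 q4 z4 r4
  have e3 := run_sound hm hcov z4 e4 q3 z3 r3
  have e2 := run_sound hm hcov z3 e3 q2 z2 r2
  have e1 := run_sound hm hcov z2 e2 q1 z1 r1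
  have e0 := run_sound hm hcov z1 e1 q0 z0 r0
  exact e0 [] List.mem_cons_self

end HPL
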