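import Mathlib
import Pool.Agent.HPL.Core

/-!
# Soundness of the checker
-/

set_option autoImplicit false

namespace HPL

theorem force_eq (n : ℕ) (f : ℕ → Bool) : force n f = f n := by
  cases n <;> rfl

theorem force5_eq (a b c d e : ℕ) (f : ℕ → ℕ → ℕ → ℕ → ℕ → Bool) :
    force5 a b c d e f = f a b c d e := by
  unfold force5
  rw [force_eq, force_eq, force_eq, force_eq, force_eq]

theorem mn_eq (a b : ℕ) : mn a b = min a b := by
  unfold mn
  cases h : Nat.ble a b with
  | true =>
    have := Nat.le_of_ble_eq_true h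
    exact (min_eq_left this).symm
  | false =>
    have h1 : ¬ a ≤ b := by
      intro h2
      rw [Nat.ble_eq_true_of_le h2] at h
      exact Bool.noConfusion h
    have h2 : b ≤ a := by omega
    exact (min_eq_right h2).symm

theorem ok_eq (b x : Bool) : ok b x = true ↔ b = true ∧ x = true := by
  cases b <;> cases x <;> decide

theorem len_eq (l : List P5) : len l = l.length := by
  induction l with
  | nil => rfl
  | cons c cs ih =>
    change Nat.succ (len cs) = _
    rw [ih]
    rfl

theorem rv_eq (l r : List P5) : rv l r = l.reverse ++ r := by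
  induction l generalizing r with
  | nil => rfl
  | cons c cs ih =>
    change rv cs (c :: r) = _
    rw [ih, List.reverse_cons, List.append_assoc]
    rfl

/-- The depths of the copy with translation `(x, y)` and ratio `1 - m` are at most `u`. -/
def Below (m x y : ℝ) (u : P5) : Prop :=
  y ≤ u.a ∧ m * 302500 - 55 * x + 34 * y ≤ u.b ∧ m * 14400 - x - y ≤ u.c ∧
    m * 302500 + 34 * x - 55 * y ≤ u.d ∧ x ≤ u.e

theorem Below.put {m x y : ℝ} {u v : P5} (hu : Below m x y u) (hv : Below m x y v) :
    Below m x y (P5.mk (mn u.a v.a) (mn u.b v.b) (mn u.c v.c) (mn u.d v.d) (mn u.e v.e)) := by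
  obtain ⟨h1, h2, h3, h4, h5⟩ := hu
  obtain ⟨g1, g2, g3, g4, g5⟩ := hv
  refine ⟨?_, ?_, ?_, ?_, ?_⟩ <;> dsimp only <;> rw [mn_eq, Nat.cast_min] <;>
    exact le_min (by assumption) (by assumption)

theorem div34 (A k : ℕ) : A ≤ k + 34 * ((A - k + 33) / 34) := by omega

theorem div21 (A k : ℕ) : A ≤ k + 21 * ((A - k + 20) / 21) := by omega

/-- the result of the closure -/
def clo' (a b c d e : ℕ) : P5 :=
  P5.mk (min a ((55 * e + b - 176055 + 33) / 34)) (min b (89 * a + 55 * c - 284889))
    (min c ((b + d - 176113 + 20) / 21)) (min d (55 * c + 89 * e - 284889))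
    (min e ((d + 55 * a - 176055 + 33) / 34))

theorem clo_eq (f : P5 → Bool) (a b c d e : ℕ) : clo f a b c d e = f (clo' a b c d e) := by
  unfold clo
  rw [force5_eq]
  unfold mid5
  rw [force5_eq]
  unfold fin5 clo'
  rw [mn_eq, mn_eq, mn_eq, mn_eq, mn_eq]
  rfl

theorem Below.clo {m x y : ℝ} (hm : (291 : ℝ) / 500 ≤ m) {a b c d e : ℕ}
    (h : Below m x y (P5.mk a b c d e)) : Below m x y (clo' a b c d e) := by
  obtain ⟨h1, h2, h3, h4, h5⟩ := h
  dsimp only at h1 h2 h3 h4 h5
  unfold clo'
  refine ⟨?_, ?_, ?_, ?_, ?_⟩ <;> dsimp only <;> rw [Nat.cast_min]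
  · refine le_min h1 ?_
    have h := div34 (55 * e + b) 176055
    have h' : (55 * e + b : ℝ) ≤ 176055 + 34 * (((55 * e + b - 176055 + 33) / 34 : ℕ) : ℝ) := by
      exact_mod_cast h
    linarith
  · refine le_min h2 ?_
    have h : 89 * a + 55 * c ≤ 284889 + (89 * a + 55 * c - 284889) := by omega
    have h' : (89 * a + 55 * c : ℝ) ≤ 284889 + ((89 * a + 55 * c - 284889 : ℕ) : ℝ) := by
      exact_mod_cast h
    linarith
  · refine le_min h3 ?_
    have h := div21 (b + d) 176113
    have h' : (b + d : ℝ) ≤ 176113 + 21 * (((b + d - 176113 + 20) / 21 : ℕ) : ℝ) := by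
      exact_mod_cast h
    linarith
  · refine le_min h4 ?_
    have h : 55 * c + 89 * e ≤ 284889 + (55 * c + 89 * e - 284889) := by omega
    have h' : (55 * c + 89 * e : ℝ) ≤ 284889 + ((55 * c + 89 * e - 284889 : ℕ) : ℝ) := by
      exact_mod_cast h
    linarith
  · refine le_min h5 ?_
    have h := div34 (d + 55 * a) 176055
    have h' : (d + 55 * a : ℝ) ≤ 176055 + 34 * (((d + 55 * a - 176055 + 33) / 34 : ℕ) : ℝ) := by
      exact_mod_cast h
    linarith

theorem lem0 {m x y : ℝ} (hm : (291 : ℝ) / 500 ≤ m) {u : P5} (h : Below m x y u) :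
    ¬ 89 * u.a + 34 * u.c + u.d ≤ 461002 := by
  intro h0
  obtain ⟨h1, h2, h3, h4, h5⟩ := h
  have h' : (89 * u.a + 34 * u.c + u.d : ℝ) ≤ 461002 := by exact_mod_cast h0
  linarith

theorem lem1 {m x y : ℝ} (hm : (291 : ℝ) / 500 ≤ m) {u : P5} (h : Below m x y u) :
    ¬ 55 * u.b + 34 * u.d + 1869 * u.e ≤ 15668894 := by
  intro h0
  obtain ⟨h1, h2, h3, h4, h5⟩ := h
  have h' : (55 * u.b + 34 * u.d + 1869 * u.e : ℝ) ≤ 15668894 := by exact_mod_cast h0
  linarith

theorem lem2 {m x y : ℝ} (hm : (291 : ℝ) / 500 ≤ m) {u : P5} (h : Below m x y u) :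
    ¬ u.c + u.e + u.a ≤ 8380 := by
  intro h0
  obtain ⟨h1, h2, h3, h4, h5⟩ := h
  have h' : (u.c + u.e + u.a : ℝ) ≤ 8380 := by exact_mod_cast h0
  linarith

theorem lem3 {m x y : ℝ} (hm : (291 : ℝ) / 500 ≤ m) {u : P5} (h : Below m x y u) :
    ¬ 55 * u.d + 1869 * u.a + 34 * u.b ≤ 15668894 := by
  intro h0
  obtain ⟨h1, h2, h3, h4, h5⟩ := h
  have h' : (55 * u.d + 1869 * u.a + 34 * u.b : ℝ) ≤ 15668894 := by exact_mod_cast h0
  linarith

theorem lem4 {m x y : ℝ} (hm : (291 : ℝ) / 500 ≤ m) {u : P5} (h : Below m x y u) :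
    ¬ 89 * u.e + u.b + 34 * u.c ≤ 461002 := by
  intro h0
  obtain ⟨h1, h2, h3, h4, h5⟩ := h
  have h' : (89 * u.e + u.b + 34 * u.c : ℝ) ≤ 461002 := by exact_mod_cast h0
  linarith

/-- the five tests -/
theorem test_sound {m x y : ℝ} (hm : (291 : ℝ) / 500 ≤ m) {u v : P5} (hu : Below m x y u)
    (hv : Below m x y v) (t : ℕ) :
    ¬ (@Nat.rec (fun _ => P5 → P5 → Bool) t0
        (fun t _ => @Nat.rec (fun _ => P5 → P5 → Bool) t1
          (fun t _ => @Nat.rec (fun _ => P5 → P5 → Bool) t2
            (fun t _ => @Nat.rec (fun _ => P5 → P5 → Bool) t3 (fun _ _ => t4) t) t) t) t u v) = true := by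
  have hp := hu.put hv
  intro h
  rcases t with _ | _ | _ | _ | t
  · exact lem0 hm hp (Nat.le_of_ble_eq_true h)
  · exact lem1 hm hp (Nat.le_of_ble_eq_true h)
  · exact lem2 hm hp (Nat.le_of_ble_eq_true h)
  · exact lem3 hm hp (Nat.le_of_ble_eq_true h)
  · exact lem4 hm hp (Nat.le_of_ble_eq_true h)

/-- the depths of a point -/
def dist' (x y : ℕ) : P5 :=
  P5.mk y (302500 + 34 * y - 55 * x) (14400 - (x + y)) (302500 + 34 * x - 55 * y) x

theorem dst_eq (x y : ℕ) (f : P5 → Bool) (h : dst x y f = true) :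
    (55 * x ≤ 302500 + 34 * y ∧ x + y ≤ 14400 ∧ 55 * y ≤ 302500 + 34 * x) ∧ f (dist' x y) = true := by
  unfold dst sb at h
  simp only [ok_eq, force_eq] at h
  obtain ⟨h1, h2, h3, h4⟩ := h
  exact ⟨⟨Nat.le_of_ble_eq_true h1, Nat.le_of_ble_eq_true h2, Nat.le_of_ble_eq_true h3⟩, h4⟩

variable {m : ℝ} {T : Fin 9 → ℝ × ℝ}

/-- the bounds of the state are satisfied by distinct copies -/
def Good (m : ℝ) (T : Fin 9 → ℝ × ℝ) (s : List P5) : Prop :=
  ∃ js : List (Fin 9), js.Nodup ∧ List.Forall₂ (fun j u => Below m (T j).1 (T j).2 u) js s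

theorem forall₂_rv {jd js : List (Fin 9)} {l r : List P5}
    (h1 : List.Forall₂ (fun j u => Below m (T j).1 (T j).2 u) jd l)
    (h2 : List.Forall₂ (fun j u => Below m (T j).1 (T j).2 u) js r) :
    List.Forall₂ (fun j u => Below m (T j).1 (T j).2 u) (jd.reverse ++ js) (rv l r) := by
  rw [rv_eq]
  exact List.rel_append (List.rel_reverse h1) h2

theorem good_rv {jd js : List (Fin 9)} {l r : List P5}
    (h1 : List.Forall₂ (fun j u => Below m (T j).1 (T j).2 u) jd l)
    (h2 : List.Forall₂ (fun j u => Below m (T j).1 (T j).2 u) js r) (hn : (jd ++ js).Nodup) :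
    Good m T (rv l r) :=
  ⟨jd.reverse ++ js, ((List.reverse_perm jd).append_right js).nodup_iff.mpr hn, forall₂_rv h1 h2⟩

theorem put_eq (u v : P5) (f : ℕ → ℕ → ℕ → ℕ → ℕ → Bool) :
    put u v f = f (mn u.a v.a) (mn u.b v.b) (mn u.c v.c) (mn u.d v.d) (mn u.e v.e) :=
  force5_eq _ _ _ _ _ _

theorem proc_sound (hm : (291 : ℝ) / 500 ≤ m) (D : P5) (j : Fin 9)
    (hD : Below m (T j).1 (T j).2 D) (k : List (List P5) → Bool)
    (K : ∀ st, k st = true → ∀ s ∈ st, ¬ Good m T s) (todo : List P5) :
    ∀ (done : List P5) (g : ℕ) (st : List (List P5)), proc D k todo done g st = true →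
      (∀ s ∈ st, ¬ Good m T s) ∧ ∀ jd jt : List (Fin 9),
        List.Forall₂ (fun j u => Below m (T j).1 (T j).2 u) jd done →
        List.Forall₂ (fun j u => Below m (T j).1 (T j).2 u) jt todo →
        (jd ++ jt).Nodup → j ∈ jd := by
  induction todo with
  | nil =>
    intro done g st h
    change @Bool.rec (fun _ => Bool) (newc D k done g st) (k st) (Nat.ble 9 (len done)) = true at h
    cases h9 : Nat.ble 9 (len done) with
    | true =>
      rw [h9] at h
      refine ⟨K st h, ?_⟩
      intro jd jt h1 h2 hn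
      cases h2
      rw [List.append_nil] at hn
      have h10 := Nat.le_of_ble_eq_true h9
      rw [len_eq, ← h1.length_eq] at h10
      have h11 : jd.toFinset = Finset.univ := by
        apply Finset.eq_univ_of_card
        rw [List.toFinset_card_of_nodup hn, Fintype.card_fin]
        have := hn.length_le_card
        rw [Fintype.card_fin] at this
        omega
      have h12 : j ∈ jd.toFinset := by
        rw [h11]
        exact Finset.mem_univ j
      exact List.mem_toFinset.mp h12
    | false =>
      rw [h9] at h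
      change newc D k done g st = true at h
      have key : ∃ n : P5, Below m (T j).1 (T j).2 n ∧
          k (List.cons (rv done (List.cons n List.nil)) st) = true := by
        unfold newc at h
        cases g with
        | zero => exact ⟨D, hD, h⟩
        | succ g =>
          change put D D (clo fun n => k (List.cons (rv done (List.cons n List.nil)) st)) = true at h
          rw [put_eq, clo_eq] at h
          exact ⟨_, (hD.put hD).clo hm, h⟩
      obtain ⟨n, hn, h1⟩ := key
      have h2 := K _ h1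
      refine ⟨fun s hs => h2 s (List.mem_cons_of_mem _ hs), ?_⟩
      intro jd jt h3 h4 h5
      cases h4
      rw [List.append_nil] at h5
      by_contra hj
      refine h2 _ List.mem_cons_self (good_rv (js := [j]) h3 (List.Forall₂.cons hn List.Forall₂.nil) ?_)
      rw [List.nodup_append]
      refine ⟨h5, List.nodup_singleton j, ?_⟩
      intro a ha b hb
      rw [List.mem_singleton] at hb
      rintro rfl
      rw [hb] at ha
      exact hj ha
  | cons c cs ih =>
    intro done g st h
    change force (Nat.div g 8) (step D c cs done (Nat.mod g 8) st (proc D k cs)) = true at h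
    rw [force_eq] at h
    have hput : ∀ n : P5, (Below m (T j).1 (T j).2 c → Below m (T j).1 (T j).2 n) →
        proc D k cs (List.cons c done) (Nat.div g 8)
          (List.cons (rv done (List.cons n cs)) st) = true →
        (∀ s ∈ st, ¬ Good m T s) ∧ ∀ jd jt : List (Fin 9),
          List.Forall₂ (fun j u => Below m (T j).1 (T j).2 u) jd done →
          List.Forall₂ (fun j u => Below m (T j).1 (T j).2 u) jt (c :: cs) →
          (jd ++ jt).Nodup → j ∈ jd := by
      intro n hn h1
      obtain ⟨h2, h3⟩ := ih _ _ _ h1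
      refine ⟨fun s hs => h2 s (List.mem_cons_of_mem _ hs), ?_⟩
      intro jd jt h4 h5 h6
      cases h5 with
      | @cons jc _ jt _ h7 h8 =>
        by_cases hj : j = jc
        · subst hj
          exact absurd (good_rv (js := j :: jt) h4 (List.Forall₂.cons (hn h7) h8) h6)
            (h2 _ List.mem_cons_self)
        · have h9 := h3 (jc :: jd) jt (List.Forall₂.cons h7 h4) h8 (by
            have h10 : (jc :: jd ++ jt).Perm (jd ++ jc :: jt) := List.perm_middle.symm
            exact h10.nodup_iff.mpr h6)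
          rcases List.mem_cons.mp h9 with h10 | h10
          · exact absurd h10 hj
          · exact h10
    unfold step at h
    rcases ht : Nat.mod g 8 with _ | _ | t
    · rw [ht] at h
      change put c D (fin5 (push c cs done (Nat.div g 8) st (proc D k cs))) = true at h
      rw [put_eq] at h
      exact hput _ (fun hc => hc.put hD) h
    · rw [ht] at h
      change put c D (clo (push c cs done (Nat.div g 8) st (proc D k cs))) = true at h
      rw [put_eq, clo_eq] at h
      exact hput _ (fun hc => (hc.put hD).clo hm) h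
    · rw [ht] at h
      change ok (@Nat.rec (fun _ => P5 → P5 → Bool) t0
        (fun t _ => @Nat.rec (fun _ => P5 → P5 → Bool) t1
          (fun t _ => @Nat.rec (fun _ => P5 → P5 → Bool) t2
            (fun t _ => @Nat.rec (fun _ => P5 → P5 → Bool) t3 (fun _ _ => t4) t) t) t) t c D)
        (proc D k cs (List.cons c done) (Nat.div g 8) st) = true at h
      rw [ok_eq] at h
      obtain ⟨h1, h2⟩ := h
      obtain ⟨h3, h4⟩ := ih _ _ _ h2
      refine ⟨h3, ?_⟩
      intro jd jt h5 h6 h7
      cases h6 with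
      | @cons jc _ jt _ h8 h9 =>
        have h10 := h4 (jc :: jd) jt (List.Forall₂.cons h8 h5) h9 (by
            have h10 : (jc :: jd ++ jt).Perm (jd ++ jc :: jt) := List.perm_middle.symm
            exact h10.nodup_iff.mpr h7)
        rcases List.mem_cons.mp h10 with h11 | h11
        · rw [← h11] at h8
          exact absurd h1 (test_sound hm h8 hD t)
        · exact h11

theorem expand_sound (hm : (291 : ℝ) / 500 ≤ m)
    (hcov : ∀ x y : ℕ, 55 * x ≤ 302500 + 34 * y → x + y ≤ 14400 → 55 * y ≤ 302500 + 34 * x →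
      ∃ j, Below m (T j).1 (T j).2 (dist' x y)) (c : ℕ) (s : List P5) (st : List (List P5))
    (k : List (List P5) → Bool) (K : ∀ st, k st = true → ∀ s ∈ st, ¬ Good m T s)
    (h : expand c s st k = true) : ∀ s' ∈ s :: st, ¬ Good m T s' := by
  unfold expand at h
  rw [force_eq, force_eq, force_eq] at h
  unfold exp2 at h
  obtain ⟨⟨h1, h2, h3⟩, h4⟩ := dst_eq _ _ _ h
  obtain ⟨j, hj⟩ := hcov _ _ h1 h2 h3
  obtain ⟨h5, h6⟩ := proc_sound hm _ j hj k K s _ _ _ h4
  intro s' hs'
  rcases List.mem_cons.mp hs' with rfl | h7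
  · rintro ⟨js, h8, h9⟩
    have := h6 [] js List.Forall₂.nil h9 h8
    exact List.not_mem_nil this
  · exact h5 s' h7

theorem eqC_eq (u v : P5) (h : eqC u v = true) : u = v := by
  unfold eqC at h
  simp only [ok_eq] at h
  obtain ⟨h1, h2, h3, h4, h5⟩ := h
  cases u
  cases v
  simp only [P5.mk.injEq]
  exact ⟨Nat.eq_of_beq_eq_true h1, Nat.eq_of_beq_eq_true h2, Nat.eq_of_beq_eq_true h3,
    Nat.eq_of_beq_eq_true h4, Nat.eq_of_beq_eq_true h5⟩

theorem eqS_eq (u : List P5) : ∀ v, eqS u v = true → u = v := by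
  induction u with
  | nil =>
    intro v h
    cases v with
    | nil => rfl
    | cons c cs => exact Bool.noConfusion h
  | cons c cs ih =>
    intro v h
    cases v with
    | nil => exact Bool.noConfusion h
    | cons c' cs' =>
      change ok (eqC c c') (eqS cs cs') = true at h
      rw [ok_eq] at h
      rw [eqC_eq _ _ h.1, ih _ h.2]

theorem eqT_eq (u : List (List P5)) : ∀ v, eqT u v = true → u = v := by
  induction u with
  | nil =>
    intro v h
    cases v with
    | nil => rfl
    | cons c cs => exact Bool.noConfusion h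
  | cons c cs ih =>
    intro v h
    cases v with
    | nil => exact Bool.noConfusion h
    | cons c' cs' =>
      change ok (eqS c c') (eqT cs cs') = true at h
      rw [ok_eq] at h
      rw [eqS_eq _ _ h.1, ih _ h.2]

/-- soundness of a run -/
theorem run_sound (hm : (291 : ℝ) / 500 ≤ m)
    (hcov : ∀ x y : ℕ, 55 * x ≤ 302500 + 34 * y → x + y ≤ 14400 → 55 * y ≤ 302500 + 34 * x →
      ∃ j, Below m (T j).1 (T j).2 (dist' x y)) (fin : List (List P5))
    (hfin : ∀ s ∈ fin, ¬ Good m T s) (codes : List ℕ) :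
    ∀ st, run fin codes st = true → ∀ s ∈ st, ¬ Good m T s := by
  induction codes with
  | nil =>
    intro st h
    change eqT st fin = true at h
    rw [eqT_eq _ _ h]
    exact hfin
  | cons c cs ih =>
    intro st h
    cases st with
    | nil => exact Bool.noConfusion h
    | cons s st =>
      change expand c s st (run fin cs) = true at h
      exact expand_sound hm hcov c s st _ ih h

end HPL
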