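import Mathlib
import Pool.Agent.HPL.Defs
import Pool.Agent.HPL.Sound

/-!
# Coverings of a pentagon by nine homothetic copies
-/

set_option autoImplicit false

namespace HPL

/-- the pentagon -/
def pent : Set (EuclideanSpace ℝ (Fin 2)) :=
  {v | 0 ≤ v 1 ∧ 0 ≤ 302500 - 55 * v 0 + 34 * v 1 ∧ 0 ≤ 14400 - v 0 - v 1 ∧
    0 ≤ 302500 + 34 * v 0 - 55 * v 1 ∧ 0 ≤ v 0}

theorem pent_convex : Convex ℝ pent := by
  intro x hx y hy a b ha hb hab
  obtain ⟨h1, h2, h3, h4, h5⟩ := hx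
  obtain ⟨g1, g2, g3, g4, g5⟩ := hy
  have e0 : (a • x + b • y) 0 = a * x 0 + b * y 0 := rfl
  have e1 : (a • x + b • y) 1 = a * x 1 + b * y 1 := rfl
  have hb' : b = 1 - a := by linarith
  refine ⟨?_, ?_, ?_, ?_, ?_⟩
  · rw [e1]
    positivity
  · rw [e0, e1]
    have := add_nonneg (mul_nonneg ha h2) (mul_nonneg hb g2)
    rw [hb'] at this ⊢
    linarith
  · rw [e0, e1]
    have := add_nonneg (mul_nonneg ha h3) (mul_nonneg hb g3)
    rw [hb'] at this ⊢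
    linarith
  · rw [e0, e1]
    have := add_nonneg (mul_nonneg ha h4) (mul_nonneg hb g4)
    rw [hb'] at this ⊢
    linarith
  · rw [e0]
    positivity

theorem cont0 : Continuous fun v : EuclideanSpace ℝ (Fin 2) => v 0 :=
  (EuclideanSpace.proj (0 : Fin 2) : EuclideanSpace ℝ (Fin 2) →L[ℝ] ℝ).continuous

theorem cont1 : Continuous fun v : EuclideanSpace ℝ (Fin 2) => v 1 :=
  (EuclideanSpace.proj (1 : Fin 2) : EuclideanSpace ℝ (Fin 2) →L[ℝ] ℝ).continuous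

theorem pent_closed : IsClosed pent := by
  have c0 := cont0
  have c1 := cont1
  have e : pent = {v | 0 ≤ v 1} ∩ ({v | 0 ≤ 302500 - 55 * v 0 + 34 * v 1} ∩ ({v | 0 ≤ 14400 - v 0 - v 1} ∩
    ({v | 0 ≤ 302500 + 34 * v 0 - 55 * v 1} ∩ {v | 0 ≤ v 0}))) := rfl
  rw [e]
  refine (isClosed_le continuous_const c1).inter ((isClosed_le continuous_const ?_).inter
    ((isClosed_le continuous_const ?_).inter ((isClosed_le continuous_const ?_).inter
      (isClosed_le continuous_const c0)))) <;> fun_prop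

theorem pent_bounded : Bornology.IsBounded pent := by
  rw [isBounded_iff_forall_norm_le]
  refine ⟨14400, ?_⟩
  rintro v ⟨h1, -, h3, -, h5⟩
  rw [EuclideanSpace.norm_eq, Fin.sum_univ_two]
  rw [Real.sqrt_le_left (by norm_num)]
  rw [Real.norm_eq_abs, Real.norm_eq_abs, sq_abs, sq_abs]
  have h6 : v 0 + v 1 ≤ 14400 := by linarith
  nlinarith [mul_nonneg h1 h5]

theorem pent_interior : (interior pent).Nonempty := by
  refine ⟨!₂[(5000 : ℝ), 5000], mem_interior.mpr ⟨{v | 0 < v 1} ∩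
    ({v | 0 < 302500 - 55 * v 0 + 34 * v 1} ∩ ({v | 0 < 14400 - v 0 - v 1} ∩
    ({v | 0 < 302500 + 34 * v 0 - 55 * v 1} ∩ {v | 0 < v 0}))), ?_, ?_, ?_⟩⟩
  · rintro v ⟨h1, h2, h3, h4, h5⟩
    exact ⟨h1.le, h2.le, h3.le, h4.le, h5.le⟩
  · have c0 := cont0
    have c1 := cont1
    refine (isOpen_lt continuous_const c1).inter ((isOpen_lt continuous_const ?_).inter
      ((isOpen_lt continuous_const ?_).inter ((isOpen_lt continuous_const ?_).inter
        (isOpen_lt continuous_const c0)))) <;> fun_prop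
  · refine ⟨?_, ?_, ?_, ?_, ?_⟩ <;> simp <;> norm_num

theorem pent_body : IsBody pent :=
  ⟨Metric.isCompact_of_isClosed_isBounded pent_closed pent_bounded, pent_convex, pent_interior⟩

theorem covered_one {k : ℕ} (hk : 0 < k) (C : Set (EuclideanSpace ℝ (Fin 2))) :
    CoveredBy k 1 C := by
  refine ⟨fun _ => 0, fun y hy => Set.mem_iUnion.mpr ⟨⟨0, hk⟩, y, hy, ?_⟩⟩
  change (0 : EuclideanSpace ℝ (Fin 2)) + (1 : ℝ) • y = y
  rw [zero_add, one_smul]

theorem below_of_cover {r : ℝ} (hr : 0 < r) {x : Fin 9 → EuclideanSpace ℝ (Fin 2)}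
    (hx : pent ⊆ ⋃ i, (fun y => x i + r • y) '' pent) (X Y : ℕ) (h1 : 55 * X ≤ 302500 + 34 * Y)
    (h2 : X + Y ≤ 14400) (h3 : 55 * Y ≤ 302500 + 34 * X) :
    ∃ j, Below (1 - r) (x j 0) (x j 1) (dist' X Y) := by
  have h1' : (55 * X : ℝ) ≤ 302500 + 34 * Y := by exact_mod_cast h1
  have h2' : (X + Y : ℝ) ≤ 14400 := by exact_mod_cast h2
  have h3' : (55 * Y : ℝ) ≤ 302500 + 34 * X := by exact_mod_cast h3
  have hP : (!₂[(X : ℝ), (Y : ℝ)] : EuclideanSpace ℝ (Fin 2)) ∈ pent := by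
    have e0 : (!₂[(X : ℝ), (Y : ℝ)] : EuclideanSpace ℝ (Fin 2)) 0 = X := rfl
    have e1 : (!₂[(X : ℝ), (Y : ℝ)] : EuclideanSpace ℝ (Fin 2)) 1 = Y := rfl
    refine ⟨?_, ?_, ?_, ?_, ?_⟩
    · rw [e1]; positivity
    · rw [e0, e1]; linarith
    · rw [e0, e1]; linarith
    · rw [e0, e1]; linarith
    · rw [e0]; positivity
  obtain ⟨j, y, ⟨g1, g2, g3, g4, g5⟩, hy⟩ := Set.mem_iUnion.mp (hx hP)
  have e0 : x j 0 + r * y 0 = X := congrArg (fun v : EuclideanSpace ℝ (Fin 2) => v 0) hy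
  have e1 : x j 1 + r * y 1 = Y := congrArg (fun v : EuclideanSpace ℝ (Fin 2) => v 1) hy
  have f1 := mul_nonneg hr.le g1
  have f2 := mul_nonneg hr.le g2
  have f3 := mul_nonneg hr.le g3
  have f4 := mul_nonneg hr.le g4
  have f5 := mul_nonneg hr.le g5
  refine ⟨j, ?_, ?_, ?_, ?_, ?_⟩
  · change x j 1 ≤ ((Y : ℕ) : ℝ)
    linarith
  · change _ ≤ ((302500 + 34 * Y - 55 * X : ℕ) : ℝ)
    rw [Nat.cast_sub h1]
    push_cast
    linarith
  · change _ ≤ ((14400 - (X + Y) : ℕ) : ℝ)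
    rw [Nat.cast_sub h2]
    push_cast
    linarith
  · change _ ≤ ((302500 + 34 * X - 55 * Y : ℕ) : ℝ)
    rw [Nat.cast_sub h3]
    push_cast
    linarith
  · change x j 0 ≤ ((X : ℕ) : ℝ)
    linarith

/-- the state with no cluster is refuted for every family of nine copies -/
def Refuted : Prop :=
  ∀ (m : ℝ) (T : Fin 9 → ℝ × ℝ), (291 : ℝ) / 500 ≤ m →
    (∀ x y : ℕ, 55 * x ≤ 302500 + 34 * y → x + y ≤ 14400 → 55 * y ≤ 302500 + 34 * x →
      ∃ j, Below m (T j).1 (T j).2 (dist' x y)) → ¬ Good m T []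

theorem not_covered (H : Refuted) {r : ℝ} (hr : 0 < r) (hr' : r ≤ 209 / 500) :
    ¬ CoveredBy 9 r pent := by
  rintro ⟨x, hx⟩
  refine H (1 - r) (fun j => (x j 0, x j 1)) (by linarith) ?_ ⟨[], List.nodup_nil, List.Forall₂.nil⟩
  intro X Y h1 h2 h3
  exact below_of_cover hr hx X Y h1 h2 h3

theorem main (H : Refuted) : (209 / 500 : ℝ) ≤ hHat 9 := by
  have h1 : (209 / 500 : ℝ) ≤ hk 9 pent := by
    refine le_csInf ⟨1, one_pos, covered_one (by norm_num) pent⟩ ?_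
    rintro r ⟨hr, hc⟩
    by_contra h
    exact not_covered H hr (not_le.mp h).le hc
  refine h1.trans (le_csSup ⟨1, ?_⟩ ⟨pent, pent_body, rfl⟩)
  rintro t ⟨C, -, rfl⟩
  exact csInf_le ⟨0, fun r hr => hr.1.le⟩ ⟨one_pos, covered_one (by norm_num) C⟩

end HPL
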